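import Pool.Agent.Lib.MP_17d4d1_pr.C.Iface

set_option autoImplicit false

/-!
# STEP (MP_17d4d1_pr, three chains): disintegration along one chain
-/

namespace Pool.Agent.Lib.MP_17d4d1_pr.C.H22

open Finset Pool.Agent.Lib.MP_17d4d1_pr Pool.Agent.Lib.MP_17d4d1_pr.S
open Pool.Agent.Lib.MP_17d4d1_pr.C

variable {X : Type} [DecidableEq X]

/-- The indicator of the sets that meet `Y` in `c` elements. -/
def ec (Y : Finset X) (c : ℕ) (A : Finset X) : ℝ := if (A ∩ Y).card = c then 1 else 0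

theorem ec_nonneg (Y : Finset X) (c : ℕ) (A : Finset X) : 0 ≤ ec Y c A := by
  unfold ec; split_ifs <;> norm_num

theorem ec_ne {Y : Finset X} {c : ℕ} {A : Finset X} (h : ec Y c A ≠ 0) : (A ∩ Y).card = c := by
  by_contra h'
  exact h (by simp [ec, h'])

theorem ec_one {Y : Finset X} {c : ℕ} {A : Finset X} (h : (A ∩ Y).card = c) : ec Y c A = 1 := by
  simp [ec, h]

theorem sum_ec (Y : Finset X) (A : Finset X) : ∑ c : Fin (Y.card + 1), ec Y (c : ℕ) A = 1 := by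
  have hc : (A ∩ Y).card < Y.card + 1 := by
    have := card_le_card (inter_subset_right (s₁ := A) (s₂ := Y))
    omega
  rw [sum_eq_single (⟨(A ∩ Y).card, hc⟩ : Fin (Y.card + 1))]
  · exact ec_one rfl
  · intro b _ hb
    by_contra h
    exact hb (Fin.ext (ec_ne h).symm)
  · intro h; exact absurd (mem_univ _) h

theorem sum_ec_le (Y : Finset X) (c : Fin (Y.card + 1)) (A : Finset X) :
    ∑ i ∈ univ.filter (· ≤ c), ec Y ((i : Fin (Y.card + 1)) : ℕ) A
      = 1 - (if (c : ℕ) < (A ∩ Y).card then 1 else 0) := by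
  have hc : (A ∩ Y).card < Y.card + 1 := by
    have := card_le_card (inter_subset_right (s₁ := A) (s₂ := Y))
    omega
  by_cases h : (c : ℕ) < (A ∩ Y).card
  · rw [if_pos h, sub_self]
    refine sum_eq_zero fun i hi => ?_
    by_contra h'
    have h1 := ec_ne h'
    have h2 : (i : ℕ) ≤ c := Fin.le_def.1 (mem_filter.1 hi).2
    omega
  · rw [if_neg h, sub_zero, sum_eq_single (⟨(A ∩ Y).card, hc⟩ : Fin (Y.card + 1))]
    · exact ec_one rfl
    · intro b _ hb
      by_contra h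
      exact hb (Fin.ext (ec_ne h).symm)
    · intro h'
      refine absurd ?_ h'
      rw [mem_filter]
      exact ⟨mem_univ _, Fin.le_def.2 (not_lt.1 h)⟩

/-- The pointwise Holley inequality for the products. -/
theorem key {w v : Finset X → ℝ} (hw : ∀ A, 0 ≤ w A) (hv : ∀ A, 0 ≤ v A) {Y : Finset X}
    (hch : ∀ A B, w A ≠ 0 → v B ≠ 0 → A ∩ Y ⊆ B ∩ Y ∨ B ∩ Y ⊆ A ∩ Y)
    (hol : Hol w v) {c c' : ℕ} (hc : c ≤ c') (A B : Finset X) :
    w A * ec Y c A * (v B * ec Y c' B) ≤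
      w (A ⊓ B) * ec Y c (A ⊓ B) * (v (A ⊔ B) * ec Y c' (A ⊔ B)) := by
  have hR : 0 ≤ w (A ⊓ B) * ec Y c (A ⊓ B) * (v (A ⊔ B) * ec Y c' (A ⊔ B)) :=
    mul_nonneg (mul_nonneg (hw _) (ec_nonneg _ _ _)) (mul_nonneg (hv _) (ec_nonneg _ _ _))
  by_cases h1 : w A = 0
  · rw [h1]; simpa using hR
  by_cases h2 : ec Y c A = 0
  · rw [h2]; simpa using hR
  by_cases h3 : v B = 0
  · rw [h3]; simpa using hR
  by_cases h4 : ec Y c' B = 0
  · rw [h4]; simpa using hR
  have hA := ec_ne h2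
  have hB := ec_ne h4
  have hsub : A ∩ Y ⊆ B ∩ Y := by
    rcases hch A B h1 h3 with h | h
    · exact h
    · rw [eq_of_subset_of_card_le h (by omega)]
  have hin : (A ⊓ B) ∩ Y = A ∩ Y := by
    ext x
    simp only [inf_eq_inter, mem_inter]
    constructor
    · rintro ⟨⟨h, _⟩, h'⟩; exact ⟨h, h'⟩
    · rintro ⟨h, h'⟩
      exact ⟨⟨h, (mem_inter.1 (hsub (mem_inter.2 ⟨h, h'⟩))).1⟩, h'⟩
  have hun : (A ⊔ B) ∩ Y = B ∩ Y := by
    ext x
    simp only [sup_eq_union, mem_inter, mem_union]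
    constructor
    · rintro ⟨h | h, h'⟩
      · exact ⟨(mem_inter.1 (hsub (mem_inter.2 ⟨h, h'⟩))).1, h'⟩
      · exact ⟨h, h'⟩
    · rintro ⟨h, h'⟩; exact ⟨Or.inr h, h'⟩
  rw [ec_one hA, ec_one hB, ec_one (by rw [hin]; exact hA : ((A ⊓ B) ∩ Y).card = c),
    ec_one (by rw [hun]; exact hB : ((A ⊔ B) ∩ Y).card = c'), mul_one, mul_one, mul_one, mul_one]
  exact hol A B

variable [Fintype X]

theorem hol_tilt {w v : Finset X → ℝ} (hw : ∀ A, 0 ≤ w A) (hv : ∀ A, 0 ≤ v A) {Y : Finset X}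
    (hch : ∀ A B, w A ≠ 0 → v B ≠ 0 → A ∩ Y ⊆ B ∩ Y ∨ B ∩ Y ⊆ A ∩ Y)
    (hol : Hol w v) {c c' : ℕ} (hc : c ≤ c') : Hol (tilt w (ec Y c)) (tilt v (ec Y c')) := by
  intro A B
  unfold Pool.Agent.Lib.MP_17d4d1_pr.tilt
  rw [div_mul_div_comm, div_mul_div_comm]
  exact div_le_div_of_nonneg_right (key hw hv hch hol hc A B) (mul_nonneg
    (sum_nonneg fun y _ => mul_nonneg (hw y) (ec_nonneg _ _ _))
    (sum_nonneg fun y _ => mul_nonneg (hv y) (ec_nonneg _ _ _)))

theorem tilt_ne {w : Finset X → ℝ} {Y : Finset X} {c : ℕ} {A : Finset X}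
    (h : tilt w (ec Y c) A ≠ 0) : w A ≠ 0 ∧ (A ∩ Y).card = c := by
  refine ⟨fun h1 => h (by simp [tilt, h1]), ec_ne (fun h1 => h (by simp [tilt, h1]))⟩

/-- STEP. -/
theorem step (hC : COUPLE_S) : STEP_S := by
  intro X _ _ Y T _ _ w hw hol hch
  set p : T → Fin (Y.card + 1) → ℝ := fun t c => Ex (w t) (ec Y (c : ℕ)) with hp
  have hp0 : ∀ t c, 0 ≤ p t c := fun t c => Ex_nonneg (hw t).nn (ec_nonneg _ _)
  have hp1 : ∀ t, ∑ c, p t c = 1 := by
    intro t
    simp only [hp, Ex]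
    rw [sum_comm]
    simp only [← mul_sum, sum_ec, mul_one]
    exact (hw t).sum
  have hcdf : ∀ t (c : Fin (Y.card + 1)), ∑ i ∈ univ.filter (· ≤ c), p t i
      = 1 - Ex (w t) (fun A => if (c : ℕ) < (A ∩ Y).card then 1 else 0) := by
    intro t c
    simp only [hp, Ex]
    rw [sum_comm]
    simp only [← mul_sum, sum_ec_le, mul_sub, mul_one, sum_sub_distrib]
    rw [(hw t).sum]
  obtain ⟨S, iS, oS, r, φ, hr, hr1, hφ, hlaw⟩ := hC T (Y.card + 1) p hp0 hp1 (by
    intro s t hst c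
    rw [hcdf, hcdf]
    have : Ex (w s) (fun A => if (c : ℕ) < (A ∩ Y).card then 1 else 0) ≤
        Ex (w t) (fun A => if (c : ℕ) < (A ∩ Y).card then 1 else 0) := by
      refine Ex_le (hw s).nn (hw t).nn (hw s).sum (hw t).sum (hol s t hst) ?_ ?_
      · intro A
        show (0 : ℝ) ≤ if (c : ℕ) < (A ∩ Y).card then 1 else 0
        split_ifs <;> norm_num
      · intro A B hAB
        show (if (c : ℕ) < (A ∩ Y).card then (1 : ℝ) else 0) ≤
          if (c : ℕ) < (B ∩ Y).card then 1 else 0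
        have h1 : (A ∩ Y).card ≤ (B ∩ Y).card := card_le_card (inter_subset_inter_right hAB)
        by_cases h : (c : ℕ) < (A ∩ Y).card
        · rw [if_pos h, if_pos (lt_of_lt_of_le h h1)]
        · rw [if_neg h]; split_ifs <;> norm_num
    linarith)
  have hpos : ∀ t x, p t (φ t x) ≠ 0 := by
    intro t x h
    have h1 := hlaw t (fun c => if c = φ t x then 1 else 0)
    have h2 : ∑ c, p t c * (if c = φ t x then (1 : ℝ) else 0) = p t (φ t x) := by
      simp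
    rw [h2, h] at h1
    have h3 : r x * (if φ t x = φ t x then (1 : ℝ) else 0) ≤
        ∑ y, r y * (if φ t y = φ t x then (1 : ℝ) else 0) :=
      single_le_sum (f := fun y => r y * (if φ t y = φ t x then (1 : ℝ) else 0))
        (fun y _ => mul_nonneg (hr y).le (by split_ifs <;> norm_num)) (mem_univ x)
    rw [if_pos rfl, mul_one, ← h1] at h3
    exact absurd (hr x) (not_lt.2 h3)
  refine ⟨S, iS, oS, r, fun t x => tilt (w t) (ec Y ((φ t x : Fin (Y.card + 1)) : ℕ)),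
    fun x => (hr x).le, hr1, ?_, ?_, ?_, ?_, ?_⟩
  · intro t x
    exact ⟨tilt_nonneg (hw t).nn (ec_nonneg _ _), tilt_sum (hpos t x),
      hol_tilt (hw t).nn (hw t).nn (hch t t) (hw t).lsm le_rfl⟩
  · intro s t x y hst hxy
    exact hol_tilt (hw s).nn (hw t).nn (hch s t) (hol s t hst) (Fin.le_def.1 (hφ s t x y hst hxy))
  · intro t u
    rw [← hlaw t (fun c => Ex (tilt (w t) (ec Y (c : ℕ))) u)]
    have h1 : ∀ c : Fin (Y.card + 1), p t c * Ex (tilt (w t) (ec Y (c : ℕ))) u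
        = Ex (w t) (ec Y (c : ℕ) * u) := fun c =>
      mul_Ex_tilt (hw t).nn (ec_nonneg Y (c : ℕ)) u
    rw [sum_congr rfl fun c _ => h1 c]
    simp only [Ex, Pi.mul_apply]
    rw [sum_comm]
    refine sum_congr rfl fun A _ => ?_
    rw [← mul_sum, ← sum_mul, sum_ec, one_mul]
  · intro t x A h
    exact (tilt_ne h).1
  · intro t x A B hA hB
    obtain ⟨h1, h2⟩ := tilt_ne hA
    obtain ⟨h3, h4⟩ := tilt_ne hB
    rcases hch t t A B h1 h3 with h | h
    · exact eq_of_subset_of_card_le h (by omega)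
    · exact (eq_of_subset_of_card_le h (by omega)).symm

end Pool.Agent.Lib.MP_17d4d1_pr.C.H22
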